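import Pool.Agent.Work.MP_d8e5f7_ag.GB.Stmts

/-!
# Block [d8e5f7 GB], the main theorem from RZ and KR
-/

set_option autoImplicit false

namespace Pool.Agent.Work.MP_d8e5f7_ag.GB.NGB

/-- Restriction of a polarization along an injective homomorphism. -/
theorem pol_pull {U W : Type} [NormedAddCommGroup U] [NormedSpace ℂ U] [NormedAddCommGroup W]
    [NormedSpace ℂ W] (f : U →ₗ[ℂ] W) (hf : Function.Injective f) (Λ : Submodule ℤ U)
    (Γ : Submodule ℤ W) (h : IsHom Λ Γ f) (F : W →ₗ[ℝ] W →ₗ[ℝ] ℝ) (hF : Pol Γ F) :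
    Pol Λ (F.compl₁₂ (f.restrictScalars ℝ) (f.restrictScalars ℝ)) where
  alt := fun x => hF.alt (f x)
  inv := fun x y => by
    show F (f (Complex.I • x)) (f (Complex.I • y)) = F (f x) (f y)
    rw [map_smul f, map_smul f]
    exact hF.inv _ _
  pos := fun x hx => by
    show 0 < F (f (Complex.I • x)) (f x)
    rw [map_smul]
    exact hF.pos _ (fun h0 => hx (hf (by rw [h0, map_zero])))
  int := fun x hx y hy => hF.int _ (h x hx) _ (h y hy)

/-- Without homomorphisms there are no invariant integral forms. -/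
theorem zero_of (hRZ : S_RZ) {V₁ V₂ : Type} [NormedAddCommGroup V₁] [NormedSpace ℂ V₁]
    [FiniteDimensional ℂ V₁] [NormedAddCommGroup V₂] [NormedSpace ℂ V₂] [FiniteDimensional ℂ V₂]
    (Λ₁ : Submodule ℤ V₁) (Λ₂ : Submodule ℤ V₂) (G : V₂ →ₗ[ℝ] V₂ →ₗ[ℝ] ℝ)
    (c : V₁ →ₗ[ℝ] V₂ →ₗ[ℝ] ℝ) (hΛ : IsLat Λ₂) (hG : Pol Λ₂ G)
    (hinv : ∀ x y, c (Complex.I • x) (Complex.I • y) = c x y)
    (hint : ∀ x ∈ Λ₁, ∀ y ∈ Λ₂, ∃ k : ℤ, c x y = k)
    (hH : ∀ φ : V₁ →ₗ[ℂ] V₂, IsHom Λ₁ Λ₂ φ → φ = 0) (x : V₁) (y : V₂) : c x y = 0 := by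
  obtain ⟨ψ, D, hD, h1, h2⟩ := hRZ V₁ V₂ Λ₁ Λ₂ G c hΛ hG hinv hint
  have h3 : D • ψ = 0 := hH _ (fun z hz => h2 z hz)
  have h4 : ψ x = 0 := by
    have h5 : D • ψ x = 0 := by
      have := congrArg (fun g : V₁ →ₗ[ℂ] V₂ => g x) h3
      exact this
    have h6 : ((D : ℝ)) • ψ x = 0 := by
      rw [← h5]
      exact Int.cast_smul_eq_zsmul ℝ D (ψ x)
    rcases smul_eq_zero.1 h6 with h7 | h7
    · exact absurd (by exact_mod_cast h7) hD
    · exact h7
  rw [h1, h4]
  simp

theorem zsmul_zero {V : Type} [NormedAddCommGroup V] [NormedSpace ℂ V] (D : ℤ) (hD : D ≠ 0)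
    (v : V) (h : D • v = 0) : v = 0 := by
  have h6 : ((D : ℝ)) • v = 0 := by
    rw [← h]
    exact Int.cast_smul_eq_zsmul ℝ D v
  rcases smul_eq_zero.1 h6 with h7 | h7
  · exact absurd (by exact_mod_cast h7) hD
  · exact h7

theorem prf (hRZ : S_RZ) (hKR : S_KR) : S_GB := by
  classical
  intro ι _ _ V _ _ _ Λ V' _ _ _ Λ' W _ _ _ Γ F e hΛ hΛ' hS hH hF hI he hne
  -- the inclusions
  let inc : ∀ i, V i →ₗ[ℂ] W := fun i =>
    e.toLinearMap ∘ₗ (LinearMap.inl ℂ (∀ i, V i) V') ∘ₗ (LinearMap.single ℂ V i)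
  let inc' : V' →ₗ[ℂ] W := e.toLinearMap ∘ₗ (LinearMap.inr ℂ (∀ i, V i) V')
  have hinc : ∀ i x, inc i x = e (Pi.single i x, 0) := fun i x => rfl
  have hinc' : ∀ y, inc' y = e (0, y) := fun y => rfl
  have hinj : ∀ i, Function.Injective (inc i) := by
    intro i x y hxy
    rw [hinc, hinc] at hxy
    have h1 := e.injective hxy
    have h2 := congrArg (fun z : (∀ i, V i) × V' => z.1 i) h1
    simpa using h2
  have hinj' : Function.Injective inc' := by
    intro x y hxy
    rw [hinc', hinc'] at hxy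
    have h1 := e.injective hxy
    have h2 := congrArg (fun z : (∀ i, V i) × V' => z.2) h1
    simpa using h2
  have hhom : ∀ i, IsHom (Λ i) Γ (inc i) := by
    intro i x hx
    rw [hinc, he]
    refine ⟨fun j => ?_, Λ'.zero_mem⟩
    by_cases hij : j = i
    · subst hij
      simpa using hx
    · show (Pi.single i x : ∀ i, V i) j ∈ Λ j
      rw [Pi.single_eq_of_ne hij]
      exact (Λ j).zero_mem
  have hhom' : IsHom Λ' Γ inc' := by
    intro y hy
    rw [hinc', he]
    exact ⟨fun j => (Λ j).zero_mem, hy⟩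
  have hdec : ∀ z : (∀ i, V i) × V', e z = ∑ j, inc j (z.1 j) + inc' z.2 := by
    intro z
    have h1 : z = (∑ j, ((Pi.single j (z.1 j), 0) : (∀ i, V i) × V')) + (0, z.2) := by
      refine Prod.ext ?_ ?_
      · rw [Prod.fst_add, Prod.fst_sum]
        simp only [add_zero]
        exact (Finset.univ_sum_single z.1).symm
      · rw [Prod.snd_add, Prod.snd_sum]
        simp
    conv_lhs => rw [h1]
    rw [map_add, map_sum]
    rfl
  -- the polarizations of the factors
  let G' : V' →ₗ[ℝ] V' →ₗ[ℝ] ℝ := F.compl₁₂ (inc'.restrictScalars ℝ) (inc'.restrictScalars ℝ)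
  have hG' : Pol Λ' G' := pol_pull inc' hinj' Λ' Γ hhom' F hF
  let G : ∀ i, V i →ₗ[ℝ] V i →ₗ[ℝ] ℝ := fun i =>
    F.compl₁₂ ((inc i).restrictScalars ℝ) ((inc i).restrictScalars ℝ)
  have hG : ∀ i, Pol (Λ i) (G i) := fun i => pol_pull (inc i) (hinj i) (Λ i) Γ (hhom i) F hF
  -- different factors of A are orthogonal
  have horth : ∀ i j, i ≠ j → ∀ (x : V i) (y : V j), F (inc i x) (inc j y) = 0 := by
    intro i j hij x y
    refine zero_of hRZ (Λ i) (Λ j) (G j)
      (F.compl₁₂ ((inc i).restrictScalars ℝ) ((inc j).restrictScalars ℝ)) (hΛ j) (hG j) ?_ ?_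
      (hH i j hij) x y
    · intro x y
      show F (inc i (Complex.I • x)) (inc j (Complex.I • y)) = F (inc i x) (inc j y)
      rw [map_smul (inc i), map_smul (inc j)]
      exact hF.inv _ _
    · intro x hx y hy
      exact hF.int _ (hhom i x hx) _ (hhom j y hy)
  -- the adjoints
  have hadj : ∀ i, ∃ (ψ : V i →ₗ[ℂ] V') (D : ℤ), D ≠ 0 ∧
      (∀ x y, F (inc i x) (inc' y) = G' (ψ x) y) ∧ ∀ x ∈ Λ i, D • ψ x ∈ Λ' := by
    intro i
    refine hRZ (V i) V' (Λ i) Λ' G'
      (F.compl₁₂ ((inc i).restrictScalars ℝ) (inc'.restrictScalars ℝ)) hΛ' hG' ?_ ?_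
    · intro x y
      show F (inc i (Complex.I • x)) (inc' (Complex.I • y)) = F (inc i x) (inc' y)
      rw [map_smul (inc i), map_smul inc']
      exact hF.inv _ _
    · intro x hx y hy
      exact hF.int _ (hhom i x hx) _ (hhom' y hy)
  choose ψ D hD hψ hmem using hadj
  have hψ0 : ∀ i, ψ i ≠ 0 := by
    intro i h0
    have hcross : ∀ (x : V i) (y : V'), F (inc i x) (inc' y) = 0 := by
      intro x y
      rw [hψ i x y, h0]
      simp
    let P : Submodule ℂ W := LinearMap.range (inc i)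
    let Q : Submodule ℂ W := LinearMap.ker
      ((LinearMap.proj i : (∀ i, V i) →ₗ[ℂ] V i) ∘ₗ (LinearMap.fst ℂ (∀ i, V i) V') ∘ₗ
        e.symm.toLinearMap)
    have hQ : ∀ w, w ∈ Q ↔ (e.symm w).1 i = 0 := fun w => Iff.rfl
    have hsymm : ∀ x, (e.symm (inc i x)).1 i = x := by
      intro x
      rw [hinc, LinearEquiv.symm_apply_apply]
      simp
    have hsub : ∀ w, w - inc i ((e.symm w).1 i) ∈ Q := by
      intro w
      rw [hQ, map_sub]
      show (e.symm w).1 i - (e.symm (inc i ((e.symm w).1 i))).1 i = 0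
      rw [hsymm, sub_self]
    have hcompl : IsCompl P Q := by
      constructor
      · rw [Submodule.disjoint_def]
        rintro w ⟨x, rfl⟩ hw
        rw [hQ, hsymm] at hw
        rw [hw, map_zero]
      · rw [codisjoint_iff, Submodule.eq_top_iff']
        intro w
        have : w = inc i ((e.symm w).1 i) + (w - inc i ((e.symm w).1 i)) := by abel
        rw [this]
        exact Submodule.add_mem_sup ⟨_, rfl⟩ (hsub w)
    have hPQ : ∀ p ∈ P, ∀ q ∈ Q, F p q = 0 := by
      rintro p ⟨x, rfl⟩ q hq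
      rw [hQ] at hq
      have h1 := hdec (e.symm q)
      rw [LinearEquiv.apply_symm_apply] at h1
      rw [h1, map_add, map_sum, hcross, add_zero]
      refine Finset.sum_eq_zero (fun j _ => ?_)
      by_cases hij : i = j
      · subst hij
        rw [hq, map_zero, map_zero]
      · exact horth i j hij _ _
    have hlat : ∀ x ∈ Γ, ∃ p ∈ P, ∃ q ∈ Q, p ∈ Γ ∧ q ∈ Γ ∧ x = p + q := by
      intro w hw
      have h1 : (∀ j, (e.symm w).1 j ∈ Λ j) ∧ (e.symm w).2 ∈ Λ' := by
        rw [← he, LinearEquiv.apply_symm_apply]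
        exact hw
      have h2 : inc i ((e.symm w).1 i) ∈ Γ := hhom i _ (h1.1 i)
      exact ⟨inc i ((e.symm w).1 i), ⟨_, rfl⟩, w - inc i ((e.symm w).1 i), hsub w, h2,
        Γ.sub_mem hw h2, by abel⟩
    have hnt := (hS i).1
    rcases hI P Q hcompl hPQ hlat with h1 | h1
    · obtain ⟨x, hx⟩ := exists_ne (0 : V i)
      have h2 : inc i x ∈ P := ⟨x, rfl⟩
      rw [h1, Submodule.mem_bot] at h2
      exact hx (hinj i (by rw [h2, map_zero]))
    · rcases hne with hc | hc
      · obtain ⟨j, hj⟩ := Fintype.exists_ne_of_one_lt_card hc i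
        have hnj := (hS j).1
        obtain ⟨x, hx⟩ := exists_ne (0 : V j)
        have h2 : inc j x ∈ Q := by
          rw [hQ, hinc, LinearEquiv.symm_apply_apply]
          show (Pi.single j x : ∀ i, V i) i = 0
          exact Pi.single_eq_of_ne (Ne.symm hj) x
        rw [h1, Submodule.mem_bot] at h2
        exact hx (hinj j (by rw [h2, map_zero]))
      · obtain ⟨y, hy⟩ := exists_ne (0 : V')
        have h2 : inc' y ∈ Q := by
          rw [hQ, hinc', LinearEquiv.symm_apply_apply]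
          rfl
        rw [h1, Submodule.mem_bot] at h2
        exact hy (hinj' (by rw [h2, map_zero]))
  -- the homomorphisms
  let φ : ∀ i, V i →ₗ[ℂ] V' := fun i => (D i) • (ψ i)
  have hφ : ∀ i x, φ i x = D i • ψ i x := fun i x => rfl
  have hφhom : ∀ i, IsHom (Λ i) Λ' (φ i) := fun i x hx => hmem i x hx
  have hφ0 : ∀ i, φ i ≠ 0 := by
    intro i h0
    apply hψ0 i
    ext x
    have h1 : φ i x = 0 := by rw [h0]; rfl
    exact zsmul_zero (D i) (hD i) _ h1
  have hφinj : ∀ i, ∀ x, φ i x = 0 → x = 0 := by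
    intro i x hx
    have h1 := hKR (V i) V' (Λ i) Λ' (φ i) (hΛ i) hΛ' (hφhom i)
    rcases (hS i).2 (LinearMap.ker (φ i)) h1 with h2 | h2
    · have h3 : x ∈ LinearMap.ker (φ i) := hx
      rw [h2, Submodule.mem_bot] at h3
      exact h3
    · exact absurd (LinearMap.ker_eq_top.1 h2) (hφ0 i)
  have horth' : ∀ i j, i ≠ j → ∀ (x : V i) (y : V j), G' (φ i x) (φ j y) = 0 := by
    intro i j hij x y
    refine zero_of hRZ (Λ i) (Λ j) (G j)
      (G'.compl₁₂ ((φ i).restrictScalars ℝ) ((φ j).restrictScalars ℝ)) (hΛ j) (hG j) ?_ ?_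
      (hH i j hij) x y
    · intro x y
      show G' (φ i (Complex.I • x)) (φ j (Complex.I • y)) = G' (φ i x) (φ j y)
      rw [map_smul (φ i), map_smul (φ j)]
      exact hG'.inv _ _
    · intro x hx y hy
      exact hG'.int _ (hφhom i x hx) _ (hφhom j y hy)
  let Φ : (∀ i, V i) →ₗ[ℂ] V' := ∑ i, (φ i) ∘ₗ (LinearMap.proj i : (∀ i, V i) →ₗ[ℂ] V i)
  have hΦ : ∀ x, Φ x = ∑ i, φ i (x i) := by
    intro x
    show (∑ i, (φ i) ∘ₗ (LinearMap.proj i : (∀ i, V i) →ₗ[ℂ] V i)) x = _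
    rw [LinearMap.sum_apply]
    rfl
  have hΦinj : Function.Injective Φ := by
    rw [← LinearMap.ker_eq_bot, LinearMap.ker_eq_bot']
    intro x hx
    funext j
    show x j = 0
    apply hφinj j
    by_contra hne0
    have h1 := hG'.pos _ hne0
    have h2 : G' (Complex.I • Φ x) (φ j (x j)) = G' (Complex.I • φ j (x j)) (φ j (x j)) := by
      rw [hΦ, Finset.smul_sum, map_sum, LinearMap.sum_apply]
      refine Finset.sum_eq_single j ?_ ?_
      · intro i _ hij
        have h3 : Complex.I • φ i (x i) = φ i (Complex.I • x i) := (map_smul (φ i) _ _).symm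
        rw [h3]
        exact horth' i j hij _ _
      · intro hj
        exact absurd (Finset.mem_univ j) hj
    rw [hx, smul_zero] at h2
    rw [← h2] at h1
    simp at h1
  refine ⟨⟨Φ, hΦinj, fun x hx => ?_⟩, ?_⟩
  · rw [hΦ]
    exact Submodule.sum_mem _ (fun i _ => hφhom i _ (hx i))
  · have h1 : Module.finrank ℂ ((∀ i, V i) × V') = Module.finrank ℂ W := e.finrank_eq
    have h2 : Module.finrank ℂ (∀ i, V i) ≤ Module.finrank ℂ V' :=
      LinearMap.finrank_le_finrank_of_injective hΦinj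
    rw [Module.finrank_prod] at h1
    omega

end Pool.Agent.Work.MP_d8e5f7_ag.GB.NGB
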