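import Pool.Agent.Work.MP_d8e5f7_ag.GB.Stmts

set_option autoImplicit false

namespace Pool.Agent.Work.MP_d8e5f7_ag.GB.NKR

theorem rk {V : Type} [NormedAddCommGroup V] [NormedSpace ℂ V] [FiniteDimensional ℂ V]
    (N : Submodule ℤ V) (hN : DiscreteTopology N) :
    Module.finrank ℝ (Submodule.span ℝ (N : Set V)) = Module.finrank ℤ N := by
  have : FiniteDimensional ℝ V := FiniteDimensional.complexToReal V
  have h : DiscreteTopology (Submodule.span ℤ (N : Set V)) := by
    rw [Submodule.span_eq]; exact hN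
  have h1 := Real.finrank_eq_int_finrank_of_discrete (s := (N : Set V)) h
  unfold Set.finrank at h1
  rw [Submodule.span_eq] at h1
  exact h1

theorem prf : S_KR := by
  intro V₁ V₂ _ _ _ _ _ _ Λ₁ Λ₂ φ h1 h2 hφ
  have : FiniteDimensional ℝ V₁ := FiniteDimensional.complexToReal V₁
  have : FiniteDimensional ℝ V₂ := FiniteDimensional.complexToReal V₂
  have := h1.1
  have := h2.1
  let K : Submodule ℤ V₁ := Λ₁ ⊓ (LinearMap.ker φ).restrictScalars ℤ
  let g : Λ₁ →ₗ[ℤ] V₂ := (φ.restrictScalars ℤ).comp Λ₁.subtype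
  let φr : V₁ →ₗ[ℝ] V₂ := φ.restrictScalars ℝ
  have hKs : ((Λ₁ : Set V₁) ∩ (LinearMap.ker φ : Set V₁)) = (K : Set V₁) := rfl
  rw [hKs]
  have hKd : DiscreteTopology K :=
    DiscreteTopology.of_subset (s := (Λ₁ : Set V₁)) h1.1 (fun x hx => hx.1)
  have hLle : LinearMap.range g ≤ Λ₂ := by
    rintro _ ⟨x, rfl⟩
    exact hφ x.1 x.2
  have hLd : DiscreteTopology (LinearMap.range g) :=
    DiscreteTopology.of_subset (s := (Λ₂ : Set V₂)) h2.1 hLle
  have e1 := rk Λ₁ h1.1
  have e2 := rk K hKd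
  have e3 := rk (LinearMap.range g) hLd
  have : Module.Finite ℤ Λ₁ := by
    have : IsZLattice ℝ Λ₁ := ⟨h1.2⟩
    exact ZLattice.module_finite ℝ Λ₁
  have e4 : Module.finrank ℤ (LinearMap.range g) + Module.finrank ℤ (LinearMap.ker g) =
      Module.finrank ℤ Λ₁ := by
    rw [← g.quotKerEquivRange.finrank_eq]
    exact Submodule.finrank_quotient_add_finrank _
  have e5 := LinearMap.finrank_range_add_finrank_ker φr
  have e6 : Module.finrank ℤ (LinearMap.ker g) = Module.finrank ℤ K := by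
    have : K = (LinearMap.ker g).map Λ₁.subtype := by
      ext x
      constructor
      · rintro ⟨hx1, hx2⟩
        exact ⟨⟨x, hx1⟩, hx2, rfl⟩
      · rintro ⟨y, hy, rfl⟩
        exact ⟨y.2, hy⟩
    rw [this]
    exact ((Submodule.equivMapOfInjective Λ₁.subtype Subtype.val_injective _).finrank_eq)
  have e7 : Submodule.span ℝ ((LinearMap.range g : Submodule ℤ V₂) : Set V₂) =
      LinearMap.range φr := by
    have : ((LinearMap.range g : Submodule ℤ V₂) : Set V₂) = φr '' (Λ₁ : Set V₁) := by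
      ext y
      constructor
      · rintro ⟨x, rfl⟩
        exact ⟨x.1, x.2, rfl⟩
      · rintro ⟨x, hx, rfl⟩
        exact ⟨⟨x, hx⟩, rfl⟩
    rw [this, Submodule.span_image, h1.2, Submodule.map_top]
  rw [e7] at e3
  rw [h1.2, finrank_top] at e1
  apply Submodule.eq_of_le_of_finrank_eq
  · rw [Submodule.span_le]
    intro x hx
    exact hx.2
  · have e8 : Module.finrank ℝ ((LinearMap.ker φ).restrictScalars ℝ) =
        Module.finrank ℝ (LinearMap.ker φr) := rfl
    rw [e8]
    omega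

end Pool.Agent.Work.MP_d8e5f7_ag.GB.NKR
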