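import Pool.Agent.Work.MP_d8e5f7_ag.GB.Stmts

/-!
# Item RZ of block GB: an invariant integral real form is given by a homomorphism
-/

set_option autoImplicit false

namespace Pool.Agent.Work.MP_d8e5f7_ag.GB.NRZ

open Pool.Agent.Work.MP_d8e5f7_ag.GB Module

variable {V₁ V₂ : Type} [NormedAddCommGroup V₁] [NormedSpace ℂ V₁]
  [NormedAddCommGroup V₂] [NormedSpace ℂ V₂]

lemma smul_split (z : ℂ) (x : V₁) : z • x = z.re • x + z.im • (Complex.I • x) := by
  have h : z = (z.re : ℂ) + (z.im : ℂ) * Complex.I := (Complex.re_add_im z).symm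
  conv_lhs => rw [h]
  rw [add_smul, mul_smul, Complex.coe_smul, Complex.coe_smul]

lemma I_I (x : V₁) : Complex.I • (Complex.I • x) = -x := by
  rw [smul_smul, Complex.I_mul_I, neg_one_smul]

lemma skewI (c : V₁ →ₗ[ℝ] V₂ →ₗ[ℝ] ℝ)
    (hc : ∀ x y, c (Complex.I • x) (Complex.I • y) = c x y) (x : V₁) (y : V₂) :
    c (Complex.I • x) y = - c x (Complex.I • y) := by
  have h := hc x (Complex.I • y)
  rw [I_I, map_neg] at h
  linarith

lemma inj_of_pol (Λ₂ : Submodule ℤ V₂) (G : V₂ →ₗ[ℝ] V₂ →ₗ[ℝ] ℝ) (hG : Pol Λ₂ G) :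
    Function.Injective G := by
  rw [injective_iff_map_eq_zero]
  intro z hz
  by_contra hne
  have h1 := hG.pos z hne
  have h2 := skewI G hG.inv z z
  rw [h2, hz] at h1
  simp at h1

theorem prf : S_RZ := by
  intro V₁ V₂ _ _ _ _ _ _ Λ₁ Λ₂ G c hL hG hcI hci
  have hinj := inj_of_pol Λ₂ G hG
  have : FiniteDimensional ℝ V₂ := FiniteDimensional.complexToReal V₂
  let E : V₂ ≃ₗ[ℝ] (V₂ →ₗ[ℝ] ℝ) :=
    LinearMap.linearEquivOfInjective G hinj (Subspace.dual_finrank_eq (K := ℝ) (V := V₂)).symm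
  have hE : ∀ z, E z = G z := fun z => rfl
  let ψ₀ : V₁ →ₗ[ℝ] V₂ := E.symm.toLinearMap ∘ₗ c
  have hψ : ∀ x, G (ψ₀ x) = c x := by
    intro x
    rw [← hE]
    exact E.apply_symm_apply (c x)
  have hψI : ∀ x, ψ₀ (Complex.I • x) = Complex.I • ψ₀ x := by
    intro x
    apply hinj
    ext y
    rw [hψ, skewI c hcI, skewI G hG.inv, hψ]
  let ψ : V₁ →ₗ[ℂ] V₂ :=
    { toFun := ψ₀
      map_add' := fun x y => map_add ψ₀ x y
      map_smul' := by
        intro z x
        rw [RingHom.id_apply, smul_split z x, smul_split z (ψ₀ x), map_add, map_smul, map_smul,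
          hψI] }
  have hψψ : ∀ x, ψ x = ψ₀ x := fun x => rfl
  -- lattice basis
  have : DiscreteTopology Λ₂ := hL.1
  have : IsZLattice ℝ Λ₂ := ⟨hL.2⟩
  have : Module.Finite ℤ Λ₂ := ZLattice.module_finite ℝ Λ₂
  have : Module.Free ℤ Λ₂ := ZLattice.module_free ℝ Λ₂
  let bz := Module.Free.chooseBasis ℤ Λ₂
  let b := bz.ofZLatticeBasis ℝ Λ₂
  have hb : ∀ i, b i ∈ Λ₂ := by
    intro i
    have : b i = (bz i : V₂) := Module.Basis.ofZLatticeBasis_apply ℝ Λ₂ bz i
    rw [this]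
    exact (bz i).2
  choose g hg using fun i j => hG.int (b i) (hb i) (b j) (hb j)
  let M : Matrix (Module.Free.ChooseBasisIndex ℤ Λ₂) (Module.Free.ChooseBasisIndex ℤ Λ₂) ℤ :=
    Matrix.of g
  let MR : Matrix (Module.Free.ChooseBasisIndex ℤ Λ₂) (Module.Free.ChooseBasisIndex ℤ Λ₂) ℝ :=
    (Int.castRingHom ℝ).mapMatrix M
  have hMR : ∀ i j, MR i j = G (b i) (b j) := fun i j => (hg i j).symm
  have hsum : ∀ (v : Module.Free.ChooseBasisIndex ℤ Λ₂ → ℝ) (j : Module.Free.ChooseBasisIndex ℤ Λ₂),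
      G (∑ i, v i • b i) (b j) = (Matrix.vecMul v MR) j := by
    intro v j
    rw [map_sum, LinearMap.sum_apply]
    simp only [Matrix.vecMul, dotProduct, hMR, map_smul, LinearMap.smul_apply, smul_eq_mul]
  have hdet : M.det ≠ 0 := by
    intro h0
    have h1 : MR.det = 0 := by
      have : MR.det = (Int.castRingHom ℝ) M.det := (RingHom.map_det _ _).symm
      rw [this, h0, map_zero]
    obtain ⟨v, hv0, hv⟩ := Matrix.exists_vecMul_eq_zero_iff.mpr h1
    apply hv0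
    have h2 : (∑ i, v i • b i) = 0 := by
      apply hinj
      rw [map_zero]
      apply b.ext
      intro j
      rw [hsum, hv]
      rfl
    funext i
    exact Fintype.linearIndependent_iff.mp b.linearIndependent v h2 i
  refine ⟨ψ, M.det, hdet, fun x y => by rw [hψψ, hψ], ?_⟩
  intro x hx
  rw [hψψ]
  choose n hn using fun j => hci x hx (b j) (hb j)
  let cc : Module.Free.ChooseBasisIndex ℤ Λ₂ → ℝ := fun i => b.repr (ψ₀ x) i
  have h1 : ψ₀ x = ∑ i, cc i • b i := (b.sum_repr (ψ₀ x)).symm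
  have h2 : Matrix.vecMul cc MR = fun j => ((n j : ℤ) : ℝ) := by
    funext j
    rw [← hsum, ← h1, hψ, hn]
  have h3 : (MR.det) • cc = Matrix.vecMul (fun j => ((n j : ℤ) : ℝ)) MR.adjugate := by
    rw [← h2, Matrix.vecMul_vecMul, Matrix.mul_adjugate, Matrix.vecMul_smul, Matrix.vecMul_one]
  have h4 : MR.adjugate = (Int.castRingHom ℝ).mapMatrix M.adjugate :=
    (RingHom.map_adjugate _ _).symm
  have h5 : MR.det = ((M.det : ℤ) : ℝ) := (RingHom.map_det (Int.castRingHom ℝ) M).symm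
  have h6 : ∀ i, ((M.det : ℤ) : ℝ) * cc i = ((Matrix.vecMul n M.adjugate i : ℤ) : ℝ) := by
    intro i
    have h7 := congrFun h3 i
    rw [h5, h4] at h7
    simp only [Pi.smul_apply, smul_eq_mul] at h7
    rw [h7]
    simp [Matrix.vecMul, dotProduct]
  have h8 : M.det • ψ₀ x = ∑ i, (Matrix.vecMul n M.adjugate i) • b i := by
    rw [h1, Finset.smul_sum]
    apply Finset.sum_congr rfl
    intro i _
    rw [← Int.cast_smul_eq_zsmul ℝ, ← Int.cast_smul_eq_zsmul ℝ, smul_smul, h6]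
  rw [h8]
  exact Submodule.sum_mem _ fun i _ => Submodule.smul_mem _ _ (hb i)

end Pool.Agent.Work.MP_d8e5f7_ag.GB.NRZ
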