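import Pool.Agent.Work.MP_d8e5f7_ag.GB.I_RZ
import Pool.Agent.Work.MP_d8e5f7_ag.GB.I_KR
import Pool.Agent.Work.MP_d8e5f7_ag.GB.I_GB

/-!
# Assembly of the block [d8e5f7 GB]
-/

set_option autoImplicit false

namespace Pool.Agent.Work.MP_d8e5f7_ag.GB

theorem gb : S_GB := NGB.prf NRZ.prf NKR.prf

end Pool.Agent.Work.MP_d8e5f7_ag.GB
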