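import Mathlib

/-!
# Block [d8e5f7 GB]: direct factors of indecomposable polarized complex tori

A complex torus is a finite-dimensional complex vector space `V` with a lattice `Λ`.
-/

set_option autoImplicit false

namespace Pool.Agent.Work.MP_d8e5f7_ag.GB

section

variable {V V' : Type} [NormedAddCommGroup V] [NormedSpace ℂ V] [NormedAddCommGroup V']
  [NormedSpace ℂ V']

/-- `Λ` is a lattice: discrete, and it spans `V` over the reals. -/
def IsLat (Λ : Submodule ℤ V) : Prop :=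
  DiscreteTopology Λ ∧ Submodule.span ℝ (Λ : Set V) = ⊤

/-- The linear map `φ` induces a homomorphism of complex tori `V / Λ → V' / Λ'`. -/
def IsHom (Λ : Submodule ℤ V) (Λ' : Submodule ℤ V') (φ : V →ₗ[ℂ] V') : Prop :=
  ∀ x ∈ Λ, φ x ∈ Λ'

/-- `F` is a polarization (Riemann form) of the torus `V / Λ`: alternating, integral on `Λ`,
`F (i x) (i y) = F x y`, and `F (i x) x > 0` for `x ≠ 0`. -/
structure Pol (Λ : Submodule ℤ V) (F : V →ₗ[ℝ] V →ₗ[ℝ] ℝ) : Prop where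
  alt : ∀ x, F x x = 0
  inv : ∀ x y, F (Complex.I • x) (Complex.I • y) = F x y
  pos : ∀ x, x ≠ 0 → 0 < F (Complex.I • x) x
  int : ∀ x ∈ Λ, ∀ y ∈ Λ, ∃ k : ℤ, F x y = k

/-- The polarized torus `(V / Λ, F)` is indecomposable: it is not the product of two nonzero
polarized tori. -/
def Indec (Λ : Submodule ℤ V) (F : V →ₗ[ℝ] V →ₗ[ℝ] ℝ) : Prop :=
  ∀ P Q : Submodule ℂ V, IsCompl P Q → (∀ p ∈ P, ∀ q ∈ Q, F p q = 0) →
    (∀ x ∈ Λ, ∃ p ∈ P, ∃ q ∈ Q, p ∈ Λ ∧ q ∈ Λ ∧ x = p + q) → P = ⊥ ∨ Q = ⊥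

/-- The torus `V / Λ` is simple: it is not zero and has no subtori except zero and itself. -/
def Simple (Λ : Submodule ℤ V) : Prop :=
  Nontrivial V ∧ ∀ P : Submodule ℂ V,
    Submodule.span ℝ ((Λ : Set V) ∩ (P : Set V)) = P.restrictScalars ℝ → P = ⊥ ∨ P = ⊤

end

/-- RZ (MEDIUM): a real form `c` which is invariant and integral is given by a homomorphism.

Proof. `G` is nondegenerate (`G (i y) y > 0`), so the real linear map `V₂ → (V₂ → ℝ)`,
`z ↦ G z`, is injective, hence bijective (dimension), and `c x y = G (ψ x) y` defines a real linear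
`ψ : V₁ → V₂`. Complex linear: `G (i z) y = - G z (i y)` (from `G (i z) (i (i y)) = G z (i y)`) and
`c (i x) y = - c x (i y)`, so `G (ψ (i x)) y = G (i ψ x) y` for all `y`.
Integrality: let `b` be a real basis of `V₂` whose integral span is `Λ₂`
(`Module.Basis.ofZLatticeBasis`, or `ZLattice` API), `g i j = G (b i) (b j)` the integral Gram
matrix, `D = det g ≠ 0` (`Matrix.exists_vecMul_eq_zero_iff` and nondegeneracy). For `x ∈ Λ₁` write
`ψ x = ∑ c i • b i`; then `c ᵥ* g = n` with `n j = c x (b j)` integral, so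
`D • c = n ᵥ* adjugate g` is integral and `D • ψ x ∈ Λ₂`. -/
def S_RZ : Prop := ∀ (V₁ V₂ : Type) [NormedAddCommGroup V₁] [NormedSpace ℂ V₁]
  [FiniteDimensional ℂ V₁] [NormedAddCommGroup V₂] [NormedSpace ℂ V₂] [FiniteDimensional ℂ V₂]
  (Λ₁ : Submodule ℤ V₁) (Λ₂ : Submodule ℤ V₂) (G : V₂ →ₗ[ℝ] V₂ →ₗ[ℝ] ℝ)
  (c : V₁ →ₗ[ℝ] V₂ →ₗ[ℝ] ℝ), IsLat Λ₂ → Pol Λ₂ G →
  (∀ x y, c (Complex.I • x) (Complex.I • y) = c x y) →
  (∀ x ∈ Λ₁, ∀ y ∈ Λ₂, ∃ k : ℤ, c x y = k) →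
  ∃ (ψ : V₁ →ₗ[ℂ] V₂) (D : ℤ), D ≠ 0 ∧ (∀ x y, c x y = G (ψ x) y) ∧ ∀ x ∈ Λ₁, D • ψ x ∈ Λ₂

/-- KR (MEDIUM): the kernel of a homomorphism is spanned by lattice points.

Proof. Let `K = Λ₁ ∩ ker φ` and `L = φ Λ₁ ⊆ Λ₂`, finitely generated discrete subgroups.
`Real.finrank_eq_int_finrank_of_discrete`: the real span of `K` has dimension `rank K`, the real
span of `L` has dimension `rank L`, and `dim V₁ = rank Λ₁`. The real span of `L` is `φ V₁`. By
rank and nullity over the integers `rank Λ₁ = rank K + rank L` and over the reals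
`dim V₁ = dim ker φ + dim φ V₁`. So `dim (span K) = dim ker φ`, and `span K ⊆ ker φ`. -/
def S_KR : Prop := ∀ (V₁ V₂ : Type) [NormedAddCommGroup V₁] [NormedSpace ℂ V₁]
  [FiniteDimensional ℂ V₁] [NormedAddCommGroup V₂] [NormedSpace ℂ V₂] [FiniteDimensional ℂ V₂]
  (Λ₁ : Submodule ℤ V₁) (Λ₂ : Submodule ℤ V₂) (φ : V₁ →ₗ[ℂ] V₂), IsLat Λ₁ → IsLat Λ₂ →
  IsHom Λ₁ Λ₂ φ →
  Submodule.span ℝ ((Λ₁ : Set V₁) ∩ (LinearMap.ker φ : Set V₁)) =
    (LinearMap.ker φ).restrictScalars ℝ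

/-- GB: the theorem. Let `J = W / Γ` be a complex torus with an indecomposable polarization `F`,
and `J ≅ A × B` as complex tori, `A` the product of finitely many simple tori `V i / Λ i` without
nonzero homomorphisms between different factors, `B = V' / Λ'`. If `A` has at least two factors or
`B` is not zero, then there is a homomorphism `A → B` with finite kernel; so
`2 dim A ≤ dim J`.

Proof. Let `G'` and `G j` be the restrictions of `F` to `V'` and `V j` (polarizations).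
For `i ≠ j` the form `F (x, y)`, `x ∈ V i`, `y ∈ V j`, is zero (`RZ` gives `ψ` with `D ψ` a
homomorphism, so `ψ = 0`). `RZ` for `c x y = F (x, y)`, `x ∈ V i`, `y ∈ V'`, gives `ψ i, D i`.
`ψ i ≠ 0`: otherwise `V i` is orthogonal to all other factors and to `V'`, and `Indec` says that
`V i` or the product of the other factors is zero. By `Simple` and `KR`, `ψ i` is injective. For
`i ≠ j` the form `c x y = G' (ψ i x) (ψ j y)` times `D i D j` is integral on `Λ i × Λ j` and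
invariant, so it is zero by `RZ`. `φ x = ∑ i, D i • ψ i (x i)` is a homomorphism; if `φ x = 0`
then `0 = G' (i φ x) (D j • ψ j (x j)) = G' (i D j ψ j (x j)) (D j ψ j (x j))`, so `x j = 0`. -/
def S_GB : Prop := ∀ (ι : Type) [Fintype ι] [Nonempty ι] (V : ι → Type)
  [∀ i, NormedAddCommGroup (V i)] [∀ i, NormedSpace ℂ (V i)] [∀ i, FiniteDimensional ℂ (V i)]
  (Λ : ∀ i, Submodule ℤ (V i)) (V' : Type) [NormedAddCommGroup V'] [NormedSpace ℂ V']
  [FiniteDimensional ℂ V'] (Λ' : Submodule ℤ V') (W : Type) [NormedAddCommGroup W]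
  [NormedSpace ℂ W] [FiniteDimensional ℂ W] (Γ : Submodule ℤ W) (F : W →ₗ[ℝ] W →ₗ[ℝ] ℝ)
  (e : ((∀ i, V i) × V') ≃ₗ[ℂ] W),
  (∀ i, IsLat (Λ i)) → IsLat Λ' → (∀ i, Simple (Λ i)) →
  (∀ i j, i ≠ j → ∀ φ : V i →ₗ[ℂ] V j, IsHom (Λ i) (Λ j) φ → φ = 0) →
  Pol Γ F → Indec Γ F → (∀ x, e x ∈ Γ ↔ (∀ i, x.1 i ∈ Λ i) ∧ x.2 ∈ Λ') →
  2 ≤ Fintype.card ι ∨ Nontrivial V' →
  (∃ φ : (∀ i, V i) →ₗ[ℂ] V', Function.Injective φ ∧ ∀ x, (∀ i, x i ∈ Λ i) → φ x ∈ Λ') ∧
  2 * Module.finrank ℂ (∀ i, V i) ≤ Module.finrank ℂ W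

end Pool.Agent.Work.MP_d8e5f7_ag.GB
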